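import Pool.Agent.Helper15.EP.St

set_option autoImplicit false

open Polynomial

namespace Pool.Agent.Helper6.EP

open Pool.Agent.Helper15.FC Pool.Agent.Helper15.EP

noncomputable section

/-- the largest entry -/
def mx3 (x : Fin 3 → ℕ) : ℕ := max (x 0) (max (x 1) (x 2))

/-- the smallest entry -/
def mn3 (x : Fin 3 → ℕ) : ℕ := min (x 0) (min (x 1) (x 2))

/-- the arrangements of `u, n - u - v, v` -/
def P6 (n u v : ℕ) : Finset (Fin 3 → ℕ) :=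
  {![u, n - u - v, v], ![u, v, n - u - v], ![n - u - v, u, v], ![n - u - v, v, u],
    ![v, u, n - u - v], ![v, n - u - v, u]}

theorem card_P6 (n u v : ℕ) : (P6 n u v).card ≤ 6 := Finset.card_le_six

theorem sorted3 (n a b c u v : ℕ) (h : a + b + c = n) (hu : u = max a (max b c))
    (hv : v = min a (min b c)) :
    (a = u ∧ b = n - u - v ∧ c = v) ∨ (a = u ∧ b = v ∧ c = n - u - v) ∨
    (a = n - u - v ∧ b = u ∧ c = v) ∨ (a = n - u - v ∧ b = v ∧ c = u) ∨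
    (a = v ∧ b = u ∧ c = n - u - v) ∨ (a = v ∧ b = n - u - v ∧ c = u) := by
  rcases le_total a b with h1 | h1 <;> rcases le_total b c with h2 | h2 <;>
    rcases le_total a c with h3 | h3 <;>
    simp only [h1, h2, h3, max_eq_left, max_eq_right, min_eq_left, min_eq_right] at hu hv <;>
    omega

theorem vec3 (x : Fin 3 → ℕ) (a b c : ℕ) (h0 : x 0 = a) (h1 : x 1 = b) (h2 : x 2 = c) :
    x = ![a, b, c] := by
  subst h0 h1 h2
  funext i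
  fin_cases i <;> rfl

theorem mem_P6 (n : ℕ) (x : Fin 3 → ℕ) (h : x 0 + x 1 + x 2 = n) :
    x ∈ P6 n (mx3 x) (mn3 x) := by
  simp only [P6, Finset.mem_insert, Finset.mem_singleton]
  rcases sorted3 n (x 0) (x 1) (x 2) (mx3 x) (mn3 x) h rfl rfl with
    ⟨h0, h1, h2⟩ | ⟨h0, h1, h2⟩ | ⟨h0, h1, h2⟩ | ⟨h0, h1, h2⟩ | ⟨h0, h1, h2⟩ | ⟨h0, h1, h2⟩
  · exact Or.inl (vec3 x _ _ _ h0 h1 h2)
  · exact Or.inr (Or.inl (vec3 x _ _ _ h0 h1 h2))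
  · exact Or.inr (Or.inr (Or.inl (vec3 x _ _ _ h0 h1 h2)))
  · exact Or.inr (Or.inr (Or.inr (Or.inl (vec3 x _ _ _ h0 h1 h2))))
  · exact Or.inr (Or.inr (Or.inr (Or.inr (Or.inl (vec3 x _ _ _ h0 h1 h2)))))
  · exact Or.inr (Or.inr (Or.inr (Or.inr (Or.inr (vec3 x _ _ _ h0 h1 h2)))))

theorem ex_mx3 (x : Fin 3 → ℕ) : ∃ i, mx3 x = x i := by
  unfold mx3
  rcases max_choice (x 0) (max (x 1) (x 2)) with h | h
  · exact ⟨0, h⟩
  · rw [h]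
    rcases max_choice (x 1) (x 2) with h' | h'
    · exact ⟨1, h'⟩
    · exact ⟨2, h'⟩

theorem ex_mn3 (n : ℕ) (x : Fin 3 → ℕ) (h : x 0 + x 1 + x 2 = n) :
    ∃ i i', i ≠ i' ∧ x i + x i' + mn3 x = n := by
  unfold mn3
  rcases min_choice (x 0) (min (x 1) (x 2)) with h' | h'
  · exact ⟨1, 2, by decide, by omega⟩
  · rw [h']
    rcases min_choice (x 1) (x 2) with h'' | h''
    · exact ⟨0, 2, by decide, by omega⟩
    · exact ⟨0, 1, by decide, by omega⟩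

theorem ine3 (n a b c u v : ℕ) (h : a + b + c = n) (hu : u = max a (max b c))
    (hv : v = min a (min b c)) :
    3 * v ≤ n ∧ n ≤ 2 * u + v ∧ u + 2 * v ≤ n ∧ u < n + 1 ∧ v < n + 1 := by
  rcases le_total a b with h1 | h1 <;> rcases le_total b c with h2 | h2 <;>
    rcases le_total a c with h3 | h3 <;>
    simp only [h1, h2, h3, max_eq_left, max_eq_right, min_eq_left, min_eq_right] at hu hv <;>
    omega

theorem good_case (ε : ℝ) (n : ℕ) (x y : Fin 3 → ℕ) (hx : x 0 + x 1 + x 2 = n)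
    (hy : y 0 + y 1 + y 2 = n) (h1 : ∀ i, ε * n ≤ x i) (h2 : ∀ j, ε * n ≤ y j)
    (h3 : ¬ Good ε n x y) :
    (mx3 x : ℝ) ≤ (1 / 2 + ε) * n ∧ (mx3 y : ℝ) ≤ (1 / 2 + ε) * n ∧
      3 * (mx3 x : ℝ) ≤ n + 2 * mn3 y + 2 * ε * n ∧
      3 * (mx3 y : ℝ) ≤ n + 2 * mn3 x + 2 * ε * n := by
  obtain ⟨ix, hix⟩ := ex_mx3 x
  obtain ⟨iy, hiy⟩ := ex_mx3 y
  obtain ⟨a, a', haa, ha⟩ := ex_mn3 n x hx
  obtain ⟨b, b', hbb, hb⟩ := ex_mn3 n y hy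
  have ha2 : (x a : ℝ) + x a' + mn3 x = n := by exact_mod_cast ha
  have hb2 : (y b : ℝ) + y b' + mn3 y = n := by exact_mod_cast hb
  rw [hix, hiy]
  refine ⟨?_, ?_, ?_, ?_⟩
  · by_contra hc
    exact h3 ⟨h1, h2, Or.inl ⟨ix, (not_le.1 hc).le⟩⟩
  · by_contra hc
    exact h3 ⟨h1, h2, Or.inr (Or.inl ⟨iy, (not_le.1 hc).le⟩)⟩
  · by_contra hc
    have hc' := not_le.1 hc
    refine h3 ⟨h1, h2, Or.inr (Or.inr (Or.inl ⟨ix, b, b', hbb, ?_⟩))⟩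
    linarith
  · by_contra hc
    have hc' := not_le.1 hc
    refine h3 ⟨h1, h2, Or.inr (Or.inr (Or.inr ⟨iy, a, a', haa, ?_⟩))⟩
    linarith

/-- the statistics -/
def st4 (p : (Fin 3 → ℕ) × (Fin 3 → ℕ)) : ℕ × ℕ × ℕ × ℕ :=
  (mx3 p.1, mn3 p.1, mx3 p.2, mn3 p.2)

open scoped Classical in
theorem fib4 (n : ℕ) (S : Finset ((Fin 3 → ℕ) × (Fin 3 → ℕ)))
    (hS : ∀ p ∈ S, p.1 0 + p.1 1 + p.1 2 = n ∧ p.2 0 + p.2 1 + p.2 2 = n)
    (z : ℕ × ℕ × ℕ × ℕ) : (S.filter (fun p => st4 p = z)).card ≤ 36 := by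
  calc _ ≤ (P6 n z.1 z.2.1 ×ˢ P6 n z.2.2.1 z.2.2.2).card := by
        apply Finset.card_le_card
        intro p hp
        obtain ⟨hp1, hp2⟩ := Finset.mem_filter.1 hp
        obtain ⟨hx, hy⟩ := hS p hp1
        subst hp2
        exact Finset.mem_product.2 ⟨mem_P6 n p.1 hx, mem_P6 n p.2 hy⟩
    _ ≤ 36 := by
        rw [Finset.card_product]
        calc _ ≤ 6 * 6 := Nat.mul_le_mul (card_P6 n _ _) (card_P6 n _ _)
          _ = 36 := by norm_num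


open scoped Classical in
theorem hCC2 : StCC2 := by
  intro ε n hε
  have hS : ∀ p ∈ (Finset.Nat.antidiagonalTuple 3 n ×ˢ Finset.Nat.antidiagonalTuple 3 n).filter
      (fun p : (Fin 3 → ℕ) × (Fin 3 → ℕ) => (∀ i, ε * n ≤ p.1 i) ∧ (∀ j, ε * n ≤ p.2 j) ∧
      ¬ Good ε n p.1 p.2), (p.1 0 + p.1 1 + p.1 2 = n ∧ p.2 0 + p.2 1 + p.2 2 = n) ∧
      (∀ i, ε * n ≤ p.1 i) ∧ (∀ j, ε * n ≤ p.2 j) ∧ ¬ Good ε n p.1 p.2 := by
    intro p hp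
    obtain ⟨hp1, hp2⟩ := Finset.mem_filter.1 hp
    obtain ⟨hx, hy⟩ := Finset.mem_product.1 hp1
    rw [Finset.Nat.mem_antidiagonalTuple, Fin.sum_univ_three] at hx hy
    exact ⟨⟨hx, hy⟩, hp2⟩
  refine Finset.card_le_mul_card_image_of_maps_to (f := st4) ?_ 36
    (fun z _ => fib4 n _ (fun p hp => (hS p hp).1) z)
  intro p hp
  obtain ⟨⟨hx, hy⟩, h1, h2, h3⟩ := hS p hp
  obtain ⟨a1, a2, a3, a4, a5⟩ := ine3 n _ _ _ (mx3 p.1) (mn3 p.1) hx rfl rfl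
  obtain ⟨b1, b2, b3, b4, b5⟩ := ine3 n _ _ _ (mx3 p.2) (mn3 p.2) hy rfl rfl
  obtain ⟨g1, g2, g3, g4⟩ := good_case ε n p.1 p.2 hx hy h1 h2 h3
  refine Finset.mem_filter.2 ⟨?_, a1, a2, a3, b1, b2, b3, g1, g2, g3, g4⟩
  exact Finset.mem_product.2 ⟨Finset.mem_range.2 a4, Finset.mem_product.2 ⟨Finset.mem_range.2 a5,
    Finset.mem_product.2 ⟨Finset.mem_range.2 b4, Finset.mem_range.2 b5⟩⟩⟩


end

end Pool.Agent.Helper6.EP
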